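import Pool.Agent.H891R2.HO.Fin

/-!
# Knotoids of height at most one

`Pool.Agent.H891R2.HO.Defs` contains the definitions:

* `Shadow k`: shadows of link diagrams with `k` crossings, each crossing with four corners in
  counterclockwise order, joined by arcs; `Shadow.IsKnot`: one component; `Shadow.Checkerboard`: the
  regions can be coloured by two colours (all diagrams in the sphere have this property);
  `Shadow.Oriented`: orientations; `Shadow.f G w o`: the normalised bracket (Jones polynomial in the
  variable `A`) of the diagram with shadow `G`, over/under information `w` and orientation `o`;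
* `switch w i₀`: the crossing `i₀` is changed;
* `Shadow.fK G w o i₀ b`: the normalised bracket of the knotoid diagram which is obtained by deleting
  one of the two strands at the crossing `i₀` (`b` says which one), a state sum over the other
  crossings, where the interval and the circles of a state are counted. The two endpoints of this
  diagram lie in regions which are adjacent along the other strand. All knotoid diagrams of height at
  most one arise in this way: the diagrams `(G, w)` and `(G, switch w i₀)` are their two classical
  closures by an arc which crosses the strand between the endpoints over or under it.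
-/

set_option autoImplicit false

namespace Pool.Agent.Results.MP_79b4ff_gt.HeightOne

open Pool.Agent.H891R2.HO

/-- Let `K` be the knotoid diagram obtained from the knot diagram `K₊ = (G, w)` by deleting a strand
at the positive crossing `i₀`, and `K₋` the diagram `K₊` with the crossing `i₀` changed; let `K'`,
`K'₊`, `K'₋` be other such diagrams. Then

* `f(K) = 1` if and only if `f(K₊) = 1` and `f(K₋) = 1`;
* `f(K) = f(K')` if and only if `f(K₊) = f(K'₊)` and `f(K₋) = f(K'₋)`. -/
theorem result {k k' : ℕ} (G : Shadow k) (hG : G.Checkerboard) (hK : G.IsKnot) (w : Fin k → Bool) 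
    (o : Fin k × Fin 4 → Bool) (ho : G.Oriented o) (i₀ : Fin k) (b : Bool) (hs : Shadow.sign w o i₀ = 1) 
    (G' : Shadow k') (hG' : G'.Checkerboard) (hK' : G'.IsKnot) (w' : Fin k' → Bool) 
    (o' : Fin k' × Fin 4 → Bool) (ho' : G'.Oriented o') (i₀' : Fin k') (b' : Bool) 
    (hs' : Shadow.sign w' o' i₀' = 1) : 
    (G.fK w o i₀ b = 1 ↔ (G.f w o = 1 ∧ G.f (switch w i₀) o = 1)) ∧ 
    (G.fK w o i₀ b = G'.fK w' o' i₀' b' ↔ 
      (G.f w o = G'.f w' o' ∧ G.f (switch w i₀) o = G'.f (switch w' i₀') o')) :=
  ⟨Fin'.one G hG hK w o ho i₀ b hs, 
    Fin'.main G hG hK w o ho i₀ b hs G' hG' hK' w' o' ho' i₀' b' hs'⟩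

end Pool.Agent.Results.MP_79b4ff_gt.HeightOne
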