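import Pool.Agent.H832R3.TW.E

/-!
# The normalised bracket polynomial of knotoids with many twist regions

Diagrams: `Pool.Agent.H891R2.Jones.Diagram` (`Crossing`, `Diagram`: oriented diagrams with marked
points; `Diagram.bracket`, `Diagram.fPoly`: the state sum and the normalised bracket; the number
`Diagram.loops` of components of a state counts circles and intervals) and
`Pool.Agent.H891R2.MT.Defs` (`UDiagram`, `Orients D U`).  `IsKnotoid D` (in
`Pool.Agent.H832R3.TW.E`): the pieces of `D` form one oriented interval, running from a marked point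
`tail` to a different marked point `head`, and (possibly) oriented closed curves.

Templates: `Pool.Agent.H832R3.TW.Defs` (`Corner k`: the `4 k` corners of `k` boxes; a template is
the list `arcs` of the pairs of corners joined outside of the boxes; for a knotoid, two corners
belong to no arc; `twisted arcs n`: the diagram in which the box `e` contains a row of `|n e|`
crossings of the kind given by the sign of `n e`; `loops arcs S`: the number of components if the
boxes `e ∈ S` contain two vertical strands and the other boxes two horizontal ones;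
`Nugatory arcs`: `loops arcs S + |S| = loops arcs ∅` for all `S`).  `FSpanLE s D` (in
`Pool.Agent.H832R3.TW.E`): `f_D` is supported in an interval of length at most `4 s`; for instance
`f_D = 1` and `s = 0`.
-/

set_option autoImplicit false

namespace Pool.Agent.Results.MP_79b4ff_gt.KnotoidTwist

open LaurentPolynomial Pool.Agent.H891R2.Jones Pool.Agent.H891R2.MT Pool.Agent.H832R3.TW

/-- Let `arcs` be a template with `k` boxes, and let `K(n)`, `n ∈ ℤ^k`, be the diagrams of knotoids
with `|n e|` crossings in the box `e`.

* Suppose that not all boxes are nugatory.  If the normalised bracket of `K(n)` has span at most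
  `4 s`, then `|n(S₁) - n(S₂)| ≤ 4 k + s + 1` for two different sets `S₁`, `S₂` of boxes, where
  `n(S) = ∑ e ∈ S, n e`.
* Hence this happens, in particular `f = 1` (`s = 0`) happens, for at most
  `3^k (8 k + 2 s + 3) (2 N + 1)^(k-1)` of the `(2 N + 1)^k` diagrams with `|n e| ≤ N` for all
  `e`. -/
theorem result (k : ℕ) (arcs : List (Corner k × Corner k)) (hτ : ¬ Nugatory arcs) (s : ℕ) :
    (∀ (n : Fin k → ℤ) (D : Diagram (Ribbon.Pt n)), Orients D (twisted arcs n) → IsKnotoid D →
      FSpanLE s D → ∃ S₁ S₂ : Finset (Fin k), S₁ ≠ S₂ ∧
        |∑ e ∈ S₁, n e - ∑ e ∈ S₂, n e| ≤ 4 * k + s + 1) ∧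
    (∀ N : ℕ, {n : Fin k → ℤ | (∀ e, |n e| ≤ N) ∧ ∃ D : Diagram (Ribbon.Pt n),
        Orients D (twisted arcs n) ∧ IsKnotoid D ∧ FSpanLE s D}.ncard ≤
      3 ^ k * (8 * k + 2 * s + 3) * (2 * N + 1) ^ (k - 1)) :=
  ⟨fun n D hD _ h => relation' arcs hτ s n D hD h,
    fun N => count' arcs hτ s N (fun _ D => IsKnotoid D)⟩

end Pool.Agent.Results.MP_79b4ff_gt.KnotoidTwist
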