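import Pool.Agent.H124R3.OW.Final

/-!
# The normalised bracket, the odd crossings and the signs of the crossings of a knotoid diagram

Travel once along a knotoid diagram with `N` crossings from its tail to its head.  Every crossing
is passed twice.  The *Gauss word* `G : Fin N × Bool ≃ Fin (2 * N)` gives for each of the two
passages `(c, false)`, `(c, true)` of the crossing `c` its place in the sequence of the `2 N`
passages; `w c = true` if the crossing `c` is positive and `w c = false` if it is negative.  A
state has an interval and some circles; here the interval is closed by joining the head with the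
tail, so that `loops G s` is the number of components (circles plus the interval) of the state
`s`, where `s c = true` means the oriented and `s c = false` the unoriented smoothing of `c`.  The
oriented smoothing is the `A`-smoothing exactly if the crossing is positive, so that the
normalised bracket `f` of the knotoid diagram is `fPoly G w` (`Pool.Agent.H832R2.JR.Defs`).

* `Crosses G i j`: the chords of the crossings `i`, `j` cross: exactly one of the two passages of
  `j` lies between the two passages of `i`.
* `OddCrossing G c`: the chord of `c` is crossed by an odd number of chords; for the knotoid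
  diagram this means that an odd number of passages lies between the two passages of `c`.
* `oddWrithe G w`: the sum of the signs of the odd crossings; `numOdd G`: their number.
* `npos w`, `nneg w`: the numbers of the positive and of the negative crossings.
* `loops G (fun _ => true)`: the number of components of the oriented state.
-/

set_option autoImplicit false

namespace Pool.Agent.Results.MP_79b4ff_gt.OddWrithe

open LaurentPolynomial Pool.Agent.H832R2.JR Pool.Agent.H124R3.OW

/-- Let `f = fPoly G w` be the normalised bracket of the diagram with the Gauss word `G` and the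
signs `w`.

1. For `f = ∑ a_k A^k` we have `∑ k a_k i^k = -4 J`, where `J` is the odd writhe.  Hence `f`
   determines the odd writhe, and `f = 1` implies that the odd writhe is `0`.
2. If `m` of the `N` crossings are odd then, for every Laurent polynomial `F`, at most
   `2^(N-m) (m choose m/2)` of the `2^N` choices of the crossings have `f = F`.
3. If `A^e` occurs in `f` then `2 (N + 1) + e ≤ 2 s + 8 n₋` and `2 (N + 1) - e ≤ 2 s + 8 n₊`, where
   `s` is the number of the components of the oriented state.  Hence `f = 1` implies
   `N + 1 - s ≤ 4 min (n₊, n₋)`.
4. If all crossings have the same sign then `f = 1` only if no two chords cross (and then `f = 1`).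
-/
theorem result :
    (∀ (N : ℕ) (G : GaussWord N) (w : Fin N → Bool),
      ∑ k ∈ (fPoly G w).coeff.support, (k : ℂ) * ((fPoly G w).coeff k : ℂ) * Complex.I ^ k =
        -4 * (oddWrithe G w : ℂ)) ∧
    (∀ (N N' : ℕ) (G : GaussWord N) (w : Fin N → Bool) (G' : GaussWord N') (w' : Fin N' → Bool),
      fPoly G w = fPoly G' w' → oddWrithe G w = oddWrithe G' w') ∧
    (∀ (N : ℕ) (G : GaussWord N) (w : Fin N → Bool), fPoly G w = 1 → oddWrithe G w = 0) ∧
    (∀ (N : ℕ) (G : GaussWord N) (F : ℤ[T;T⁻¹]),
      Nat.card {w : Fin N → Bool // fPoly G w = F} ≤
        2 ^ (N - numOdd G) * (numOdd G).choose (numOdd G / 2)) ∧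
    (∀ (N : ℕ) (G : GaussWord N) (w : Fin N → Bool) (e : ℤ), 0 < N → (fPoly G w).coeff e ≠ 0 →
      2 * ((N : ℤ) + 1) + e ≤ 2 * loops G (fun _ => true) + 8 * nneg w ∧
      2 * ((N : ℤ) + 1) - e ≤ 2 * loops G (fun _ => true) + 8 * npos w) ∧
    (∀ (N : ℕ) (G : GaussWord N) (w : Fin N → Bool), 0 < N → fPoly G w = 1 →
      N + 1 ≤ loops G (fun _ => true) + 4 * min (npos w) (nneg w)) ∧
    (∀ (N : ℕ) (G : GaussWord N) (w : Fin N → Bool),
      (∀ c, w c = true) ∨ (∀ c, w c = false) →
      (fPoly G w = 1 ↔ ∀ i j, ¬ Crosses G i j)) :=
  ⟨fun _ G w => deriv_odd G w, fun _ _ G w G' w' h => odd_of_eq G w G' w' h,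
    fun _ G w h => odd_of_one G w h, fun _ G F => count_le G F,
    fun _ G w e hN h => coeff_bound G hN w e h, fun _ G w hN h => genus_bound G hN w h,
    fun _ G w hw => one_sign G w hw⟩

end Pool.Agent.Results.MP_79b4ff_gt.OddWrithe
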