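import Pool.Agent.H867R3.Kn.Main2
import Pool.Agent.H867R3.Kn.A1
import Pool.Agent.H867R3.Kn.A2
import Pool.Agent.H867R3.Kn.A3
import Pool.Agent.H867R3.Kn.A4
import Pool.Agent.H867R3.Kn.A5
import Pool.Agent.H867R3.Kn.A6
import Pool.Agent.H867R3.Kn.B1
import Pool.Agent.H867R3.Kn.B2
import Pool.Agent.H867R3.Kn.B3
import Pool.Agent.H867R3.Kn.C1
import Pool.Agent.H867R3.Kn.C2
import Pool.Agent.H867R3.Kn.C3
import Pool.Agent.H867R3.Kn.C4
import Pool.Agent.H867R3.Kn.D1
import Pool.Agent.H867R3.Kn.D1b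
import Pool.Agent.H867R3.Kn.D2
import Pool.Agent.H867R3.Kn.E1
import Pool.Agent.H867R3.Kn.E2
import Pool.Agent.H867R3.Kn.E3
import Pool.Agent.H867R3.Kn.F1
import Pool.Agent.H867R3.Kn.F2
import Pool.Agent.H867R3.Kn.G0
import Pool.Agent.H867R3.Kn.G1
import Pool.Agent.H867R3.Kn.G2
import Pool.Agent.H867R3.Kn.H1
import Pool.Agent.H867R3.Kn.H2
import Pool.Agent.H867R3.Kn.H3
import Pool.Agent.H867R3.Kn.M1
import Pool.Agent.H867R3.Kn.P1
import Pool.Agent.H867R3.Kn.P2
import Pool.Agent.H867R3.Kn.P3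
import Pool.Agent.H867R3.Kn.P4

/-!
# The normalised bracket polynomial detects the trivial knotoid for simply adequate diagrams

See `Pool/Agent/H867R3/Kn/Defs.lean` for the description of knotoid diagrams by Gauss words and
flat signs, the states and the normalised bracket polynomial `kPoly`, and
`Pool/Agent/H867R3/Kn/Main2.lean` for `SimplyAdequate`.
-/

set_option autoImplicit false

namespace Pool.Agent.Results.MP_79b4ff_gt.SimplyAdequate

open Pool.Agent.H832R2.JR Pool.Agent.H867R3.Kn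

/-- **Theorem.**  Let a knotoid diagram in the sphere be simply adequate (switching a single
smoothing of its all-A state, or of its all-B state, never increases the number of components), or
let it be positive or negative.  If its normalised bracket polynomial is `1`, then all its
crossings can be removed one after the other by Reidemeister moves of type I (removal of kinks). -/
theorem result (N : ℕ) (G : GaussWord N) (ε w : Fin N → Bool) (hs : Spherical G ε)
    (hA : (Pool.Agent.H867R3.Kn.SimplyAdequate G w ∨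
        Pool.Agent.H867R3.Kn.SimplyAdequate G (fun c => !w c)) ∨
      ((∀ c, w c = true) ∨ (∀ c, w c = false)))
    (hk : kPoly G w = 1) : UntiedByKinks G := by
  have a1 := t_A1
  have a2 := t_A2 a1
  have a3 := t_A3
  have a4 := t_A4
  have a5 := t_A5
  have a6 := t_A6
  have b1 := t_B1 a2 a3
  have b2 := t_B2 a3
  have b3 := t_B3 a2 a3 b1 b2
  have c1 := t_C1 a4
  have c2 := t_C2 a4 a5 b3
  have c3 := t_C3 a4 a5
  have c4 := t_C4 c1 c2 c3
  have d2 := t_D2 a1
  have e2 := t_E2 t_E1
  have g0 := t_G0 a4 a5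
  have g1 := t_G1 a4 a5
  have g2 := t_G2 a4
  have h1 := t_H1 a2 a3 a4 a5 b1 b2
  have h2 := t_H2 a4
  have h3 := t_H3 a3 b1
  have p2 := t_P2 a2 a3
  have p3 := t_P3 a5
  rcases hA with hA | hA
  · refine main_semi a1 a6 c1 c4 t_D1 d2 e2 t_E3 t_F1 t_F2 t_M1 N G ε w hs ?_ hk
    rcases hA with hA | hA
    · exact Or.inl (simply_adequate a1 a6 t_D1b d2 g1 g2 h1 h2 h3 t_P1 p2 p3 t_P4 G ε w hs hA hk)
    · exact Or.inr (simply_adequate a1 a6 t_D1b d2 g1 g2 h1 h2 h3 t_P1 p2 p3 t_P4 G ε _ hs hA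
        (t_M1 N G w hk))
  · rcases hA with hw | hw
    · exact main_positive t_D1b d2 g0 g2 t_F1 t_F2 G w hw hk
    · exact main_positive t_D1b d2 g0 g2 t_F1 t_F2 G (fun c => !w c) (fun c => by simp [hw c])
        (t_M1 N G w hk)

end Pool.Agent.Results.MP_79b4ff_gt.SimplyAdequate
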